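import Pool.Agent.Helper27.CW.Spec

/-! Part Q12c of the CW swarm (MP_990a44_co): the joint local bound for two Hamming distances. -/

set_option linter.unusedSectionVars false

namespace Helper86.CW

open Helper27.CD Helper27.CW

/-- bivariate monomial -/
noncomputable def mo (a b : ℕ) (c : ℝ) : Polynomial (Polynomial ℝ) :=
  Polynomial.monomial b (Polynomial.monomial a c)

lemma mo_mul (a b a' b' : ℕ) (c c' : ℝ) :
    mo a b c * mo a' b' c' = mo (a + a') (b + b') (c * c') := by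
  simp [mo, Polynomial.monomial_mul_monomial]

lemma mo_add (a b : ℕ) (c c' : ℝ) : mo a b c + mo a b c' = mo a b (c + c') := by
  simp [mo]

lemma mo_pow (a b k : ℕ) (c : ℝ) : mo a b c ^ k = mo (a * k) (b * k) (c ^ k) := by
  simp [mo, Polynomial.monomial_pow]

lemma mo_one : mo 0 0 1 = 1 := by
  simp [mo]

lemma mo_nat (n : ℕ) : mo 0 0 (n : ℝ) = (n : Polynomial (Polynomial ℝ)) := by
  simp [mo]

lemma mo_prod {ι : Type} (s : Finset ι) (a b : ι → ℕ) (c : ι → ℝ) :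
    ∏ i ∈ s, mo (a i) (b i) (c i) = mo (∑ i ∈ s, a i) (∑ i ∈ s, b i) (∏ i ∈ s, c i) := by
  classical
  induction s using Finset.induction_on with
  | empty => simp [mo_one]
  | insert i s hi ih =>
    rw [Finset.prod_insert hi, Finset.sum_insert hi, Finset.sum_insert hi, Finset.prod_insert hi,
      ih, mo_mul]

/-- the coefficient -/
noncomputable def cf (j j' : ℕ) (P : Polynomial (Polynomial ℝ)) : ℝ := (P.coeff j').coeff j

lemma cf_sum {α : Type} (j j' : ℕ) (s : Finset α) (P : α → Polynomial (Polynomial ℝ)) :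
    cf j j' (∑ x ∈ s, P x) = ∑ x ∈ s, cf j j' (P x) := by
  simp [cf]

lemma cf_mo (j j' a b : ℕ) (c : ℝ) : cf j j' (mo a b c) = if a = j ∧ b = j' then c else 0 := by
  simp only [cf, mo, Polynomial.coeff_monomial]
  by_cases h : b = j'
  · by_cases h' : a = j
    · simp [h, h']
    · simp [h, h', Polynomial.coeff_monomial]
  · simp [h]

/-- the binomial theorem for two monomials -/
lemma bin2 (a b a' b' k : ℕ) (c c' : ℝ) :
    (mo a b c + mo a' b' c') ^ k = ∑ m ∈ Finset.range (k + 1),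
      mo (a * m + a' * (k - m)) (b * m + b' * (k - m))
        ((k.choose m : ℝ) * (c ^ m * c' ^ (k - m))) := by
  rw [add_pow]
  refine Finset.sum_congr rfl fun m _ => ?_
  rw [mo_pow, mo_pow, mo_mul, ← mo_nat, mo_mul]
  congr 1
  ring

lemma coord (p : ℝ) (x y : ZMod 3) :
    ∑ s : ZMod 3, mo (if s ≠ x then 1 else 0) (if s ≠ y then 1 else 0)
      (if s = x then 1 - p else p / 2) =
      if x = y then mo 1 1 p + mo 0 0 (1 - p)
      else mo 1 1 (p / 2) + (mo 0 1 (1 - p) + mo 1 0 (p / 2)) := by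
  have h3 : ∀ F : ZMod 3 → Polynomial (Polynomial ℝ), ∑ s : ZMod 3, F s = F 0 + F 1 + F 2 := by
    intro F
    exact Fin.sum_univ_three F
  have e2 : mo 1 1 (p / 2) + mo 1 1 (p / 2) = mo 1 1 p := by rw [mo_add]; congr 1; ring
  rw [h3]
  have h01 : (0 : ZMod 3) ≠ 1 := by decide
  have h02 : (0 : ZMod 3) ≠ 2 := by decide
  have h12 : (1 : ZMod 3) ≠ 2 := by decide
  have hx : x = 0 ∨ x = 1 ∨ x = 2 := by revert x; decide
  have hy : y = 0 ∨ y = 1 ∨ y = 2 := by revert y; decide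
  rcases hx with rfl | rfl | rfl <;> rcases hy with rfl | rfl | rfl <;>
    simp only [h01, h02, h12, h01.symm, h02.symm, h12.symm, ne_eq, not_true_eq_false,
      not_false_eq_true, if_true, if_false, ← e2] <;> abel

/-- the generating function -/
lemma gen {ι : Type} [Fintype ι] [DecidableEq ι] (b b' : ι → ZMod 3) (p : ℝ) :
    ∑ z : ι → ZMod 3, mo (hammingDist z b) (hammingDist z b') (W p z b) =
      (mo 1 1 p + mo 0 0 (1 - p)) ^ (Fintype.card ι - hammingDist b b') *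
      (mo 1 1 (p / 2) + (mo 0 1 (1 - p) + mo 1 0 (p / 2))) ^ (hammingDist b b') := by
  have h1 : ∀ z : ι → ZMod 3, mo (hammingDist z b) (hammingDist z b') (W p z b) =
      ∏ i, mo (if z i ≠ b i then 1 else 0) (if z i ≠ b' i then 1 else 0)
        (if z i = b i then 1 - p else p / 2) := by
    intro z
    rw [mo_prod]
    unfold hammingDist W
    rw [Finset.card_filter, Finset.card_filter]
  simp only [h1]
  have h2 := Finset.prod_univ_sum (fun _ : ι => (Finset.univ : Finset (ZMod 3)))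
    (fun (i : ι) (s : ZMod 3) => mo (if s ≠ b i then 1 else 0) (if s ≠ b' i then 1 else 0)
        (if s = b i then 1 - p else p / 2))
  rw [Fintype.piFinset_univ] at h2
  rw [← h2]
  simp only [coord]
  rw [Finset.prod_ite, Finset.prod_const, Finset.prod_const]
  congr 2
  have h3 := Finset.card_filter_add_card_filter_not (s := (Finset.univ : Finset ι))
    (fun i => b i = b' i)
  rw [Finset.card_univ] at h3
  unfold hammingDist
  simp only [ne_eq]
  omega

/-- the sum as a coefficient -/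
lemma sum_eq_cf {ι : Type} [Fintype ι] [DecidableEq ι] (b b' : ι → ZMod 3) (p : ℝ) (j j' : ℕ) :
    (∑ z ∈ (Finset.univ : Finset (ι → ZMod 3)).filter
      (fun z => hammingDist z b = j ∧ hammingDist z b' = j'), W p z b) =
    cf j j' ((mo 1 1 p + mo 0 0 (1 - p)) ^ (Fintype.card ι - hammingDist b b') *
      (mo 1 1 (p / 2) + (mo 0 1 (1 - p) + mo 1 0 (p / 2))) ^ (hammingDist b b')) := by
  rw [← gen, cf_sum, Finset.sum_filter]
  refine Finset.sum_congr rfl fun z _ => ?_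
  rw [cf_mo]

lemma bp_nonneg {p : ℝ} (h0 : 0 ≤ p) (h1 : p ≤ 1) (k j : ℕ) : 0 ≤ bp p k j := by
  unfold bp
  have : 0 ≤ 1 - p := by linarith
  positivity

lemma bp_sum (p : ℝ) (k : ℕ) : ∑ j ∈ Finset.range (k + 1), bp p k j = 1 := by
  have h := add_pow p (1 - p) k
  rw [show p + (1 - p) = 1 by ring, one_pow] at h
  rw [h]
  refine Finset.sum_congr rfl fun m _ => ?_
  unfold bp
  ring

/-- expansion of the first factor -/
lemma exp0 (p : ℝ) (N : ℕ) : (mo 1 1 p + mo 0 0 (1 - p)) ^ N =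
    ∑ X ∈ Finset.range (N + 1), mo X X (bp p N X) := by
  rw [bin2]
  refine Finset.sum_congr rfl fun m _ => ?_
  unfold bp
  congr 1
  · ring
  · ring
  · ring

/-- expansion of the second factor, I -/
lemma exp1 (p : ℝ) (w : ℕ) : (mo 1 1 (p / 2) + (mo 0 1 (1 - p) + mo 1 0 (p / 2))) ^ w =
    ∑ c ∈ Finset.range (w + 1), ∑ a ∈ Finset.range (w - c + 1),
      mo (c + (w - c - a)) (c + a) (((w.choose c : ℝ) * (p / 2) ^ c) *
        (((w - c).choose a : ℝ) * ((1 - p) ^ a * (p / 2) ^ (w - c - a)))) := by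
  rw [add_pow]
  refine Finset.sum_congr rfl fun c _ => ?_
  rw [bin2, Finset.mul_sum, Finset.sum_mul]
  refine Finset.sum_congr rfl fun a _ => ?_
  rw [mo_pow, mo_mul, ← mo_nat, mo_mul]
  congr 1
  · ring
  · ring
  · ring

/-- expansion of the second factor, II -/
lemma exp2 (p : ℝ) (w : ℕ) : (mo 1 1 (p / 2) + (mo 0 1 (1 - p) + mo 1 0 (p / 2))) ^ w =
    ∑ a ∈ Finset.range (w + 1), ∑ c ∈ Finset.range (w - a + 1),
      mo (w - a) (a + c) (bp (1 - p) w a * bp (1 / 2) (w - a) c) := by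
  rw [show mo 1 1 (p / 2) + (mo 0 1 (1 - p) + mo 1 0 (p / 2)) =
    mo 0 1 (1 - p) + (mo 1 1 (p / 2) + mo 1 0 (p / 2)) by ring, add_pow]
  refine Finset.sum_congr rfl fun a _ => ?_
  rw [bin2, Finset.mul_sum, Finset.sum_mul]
  refine Finset.sum_congr rfl fun c hc => ?_
  rw [mo_pow, mo_mul, ← mo_nat, mo_mul]
  have hc' : c ≤ w - a := by
    rw [Finset.mem_range] at hc
    omega
  congr 1
  · omega
  · ring
  · unfold bp
    obtain ⟨m, hm⟩ : ∃ m, w - a = c + m := ⟨w - a - c, by omega⟩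
    rw [hm, Nat.add_sub_cancel_left]
    rw [show (1 : ℝ) - 1 / 2 = 1 / 2 by norm_num, show (1 : ℝ) - (1 - p) = p by ring]
    have e1 : (p / 2) ^ c * (p / 2) ^ m = p ^ (c + m) * ((1 / 2) ^ c * (1 / 2) ^ m) := by
      rw [← pow_add, ← pow_add, ← mul_pow]
      congr 1
      ring
    calc _ = (((c + m).choose c : ℝ) * ((1 - p) ^ a * (w.choose a : ℝ))) *
          ((p / 2) ^ c * (p / 2) ^ m) := by ring
      _ = _ := by rw [e1]; ring

/-- a sum with at most one term -/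
lemma one_term (s t : Finset ℕ) (P : ℕ → ℕ → Prop) [∀ x y, Decidable (P x y)] (f g : ℕ → ℝ)
    (F G : ℝ) (hF : 0 ≤ F) (hG : 0 ≤ G)
    (hP : ∀ x ∈ s, ∀ y ∈ t, ∀ x' ∈ s, ∀ y' ∈ t, P x y → P x' y' → x = x' ∧ y = y')
    (hf0 : ∀ x ∈ s, 0 ≤ f x) (hf : ∀ x ∈ s, f x ≤ F)
    (hg : ∀ x ∈ s, ∀ y ∈ t, P x y → g y ≤ G) :
    ∑ x ∈ s, ∑ y ∈ t, (if P x y then f x * g y else 0) ≤ F * G := by
  rw [← Finset.sum_product', ← Finset.sum_filter]
  have h1 : ((s ×ˢ t).filter (fun xy => P xy.1 xy.2)).card ≤ 1 := by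
    rw [Finset.card_le_one]
    intro x hx y hy
    rw [Finset.mem_filter, Finset.mem_product] at hx hy
    obtain ⟨e1, e2⟩ := hP x.1 hx.1.1 x.2 hx.1.2 y.1 hy.1.1 y.2 hy.1.2 hx.2 hy.2
    exact Prod.ext e1 e2
  have h2 : ∀ x ∈ (s ×ˢ t).filter (fun xy => P xy.1 xy.2), f x.1 * g x.2 ≤ F * G := by
    intro x hx
    rw [Finset.mem_filter, Finset.mem_product] at hx
    have a1 := hf0 x.1 hx.1.1
    have a2 := hf x.1 hx.1.1
    have a3 := hg x.1 hx.1.1 x.2 hx.1.2 hx.2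
    calc f x.1 * g x.2 ≤ f x.1 * G := mul_le_mul_of_nonneg_left a3 a1
      _ ≤ F * G := mul_le_mul_of_nonneg_right a2 hG
  refine (Finset.sum_le_card_nsmul _ _ _ h2).trans ?_
  rw [nsmul_eq_mul]
  have h3 : (((s ×ˢ t).filter (fun xy => P xy.1 xy.2)).card : ℝ) ≤ 1 := by exact_mod_cast h1
  have h4 : 0 ≤ F * G := mul_nonneg hF hG
  nlinarith

/-- the average of `1/(w-c+1)` -/
lemma avg_inv (q : ℝ) (w : ℕ) (h0 : 0 ≤ q) (h1 : q < 1) :
    ∑ c ∈ Finset.range (w + 1), bp q w c * (1 / ((w - c : ℕ) + 1 : ℝ)) ≤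
      1 / (((w : ℝ) + 1) * (1 - q)) := by
  have h1' : 0 < 1 - q := by linarith
  have e1 : ∀ c ∈ Finset.range (w + 1), bp q w c * (1 / ((w - c : ℕ) + 1 : ℝ)) =
      bp q (w + 1) c * (1 / (((w : ℝ) + 1) * (1 - q))) := by
    intro c hc
    rw [Finset.mem_range] at hc
    have h2 := Nat.choose_mul_succ_eq w c
    have h3 : w + 1 - c = (w - c) + 1 := by omega
    rw [h3] at h2
    have h4 : (w.choose c : ℝ) * ((w : ℝ) + 1) = ((w + 1).choose c : ℝ) * (((w - c : ℕ) : ℝ) + 1) := by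
      exact_mod_cast h2
    unfold bp
    rw [h3, pow_succ]
    have h5 : (0 : ℝ) < ((w - c : ℕ) : ℝ) + 1 := by positivity
    field_simp
    linear_combination (q ^ c) * h4
  rw [Finset.sum_congr rfl e1, ← Finset.sum_mul]
  have e2 : ∑ c ∈ Finset.range (w + 1), bp q (w + 1) c ≤ 1 := by
    rw [← bp_sum q (w + 1)]
    refine Finset.sum_le_sum_of_subset_of_nonneg ?_ (fun c _ _ => bp_nonneg h0 h1.le _ _)
    exact Finset.range_mono (by omega)
  calc _ ≤ 1 * (1 / (((w : ℝ) + 1) * (1 - q))) :=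
        mul_le_mul_of_nonneg_right e2 (by positivity)
    _ = _ := one_mul _

/-- AM-GM -/
lemma amgm (x y : ℝ) (hx : 0 < x) (hy : 0 < y) :
    1 / Real.sqrt x ≤ (1 / 2) * (Real.sqrt y * (1 / x) + 1 / Real.sqrt y) := by
  obtain ⟨a, ha, hax⟩ : ∃ a : ℝ, 0 < a ∧ Real.sqrt x = a := ⟨_, Real.sqrt_pos.mpr hx, rfl⟩
  obtain ⟨b, hb, hby⟩ : ∃ b : ℝ, 0 < b ∧ Real.sqrt y = b := ⟨_, Real.sqrt_pos.mpr hy, rfl⟩
  have hx2 : x = a ^ 2 := by rw [← hax, Real.sq_sqrt hx.le]
  rw [hax, hby, hx2]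
  have h1 : (1 / 2) * (b * (1 / a ^ 2) + 1 / b) - 1 / a = (a - b) ^ 2 / (2 * a ^ 2 * b) := by
    field_simp
    ring
  have h2 : 0 ≤ (a - b) ^ 2 / (2 * a ^ 2 * b) := by positivity
  linarith

/-- the average of `1/√(w-c+1)` -/
lemma avg_sqrt (q : ℝ) (w : ℕ) (h0 : 0 ≤ q) (h1 : q ≤ 35 / 100) :
    ∑ c ∈ Finset.range (w + 1), bp q w c * (1 / Real.sqrt ((w - c : ℕ) + 1 : ℝ)) ≤
      2 / Real.sqrt ((w : ℝ) + 1) := by
  have hw : (0 : ℝ) < (w : ℝ) + 1 := by positivity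
  obtain ⟨b, hb, hby⟩ : ∃ b : ℝ, 0 < b ∧ Real.sqrt ((w : ℝ) + 1) = b :=
    ⟨_, Real.sqrt_pos.mpr hw, rfl⟩
  have hb2 : (w : ℝ) + 1 = b ^ 2 := by rw [← hby, Real.sq_sqrt hw.le]
  have e1 : ∀ c ∈ Finset.range (w + 1), bp q w c * (1 / Real.sqrt ((w - c : ℕ) + 1 : ℝ)) ≤
      (1 / 2 * b) * (bp q w c * (1 / ((w - c : ℕ) + 1 : ℝ))) + (1 / 2 * (1 / b)) * bp q w c := by
    intro c _
    have h2 := amgm ((w - c : ℕ) + 1 : ℝ) ((w : ℝ) + 1) (by positivity) hw
    rw [hby] at h2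
    have h3 := mul_le_mul_of_nonneg_left h2 (bp_nonneg h0 (by linarith) w c)
    refine h3.trans (le_of_eq ?_)
    ring
  refine (Finset.sum_le_sum e1).trans ?_
  rw [Finset.sum_add_distrib, ← Finset.mul_sum, ← Finset.mul_sum, bp_sum, hby]
  have h2 := avg_inv q w h0 (by linarith)
  rw [hb2] at h2
  have h3 : 1 / (b ^ 2 * (1 - q)) ≤ 1 / (b ^ 2 * (1 / 2)) := by
    refine one_div_le_one_div_of_le (by positivity) ?_
    exact mul_le_mul_of_nonneg_left (by linarith) (by positivity)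
  have h4 := mul_le_mul_of_nonneg_left (h2.trans h3) (show 0 ≤ 1 / 2 * b by positivity)
  have h5 : 1 / 2 * b * (1 / (b ^ 2 * (1 / 2))) = 1 / b := by field_simp
  rw [h5] at h4
  have h6 : 2 / b = 1 / b + 1 / 2 * (1 / b) * 1 + 1 / 2 * (1 / b) := by ring
  have h7 : 0 < 1 / b := by positivity
  rw [h6]
  linarith

/-- the trinomial with a given difference -/
lemma tri_bp (hbp : S_bp) (p : ℝ) (h6 : 6 / 10 ≤ p) (h7 : p ≤ 7 / 10) (m a : ℕ) (ha : a ≤ m) :
    ((m.choose a : ℝ) * ((1 - p) ^ a * (p / 2) ^ (m - a))) ≤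
      (1 - p / 2) ^ m * (2 * (1 / Real.sqrt ((m : ℝ) + 1))) := by
  have hq : 0 < 1 - p / 2 := by linarith
  have h1 := hbp ((1 - p) / (1 - p / 2)) m a
    (by rw [le_div_iff₀ hq]; linarith) (by rw [div_le_iff₀ hq]; linarith)
  have h2 : (m.choose a : ℝ) * ((1 - p) ^ a * (p / 2) ^ (m - a)) =
      (1 - p / 2) ^ m * bp ((1 - p) / (1 - p / 2)) m a := by
    unfold bp
    have h3 : 1 - (1 - p) / (1 - p / 2) = (p / 2) / (1 - p / 2) := by
      rw [eq_div_iff hq.ne', sub_mul, div_mul_cancel₀ _ hq.ne']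
      ring
    rw [h3]
    obtain ⟨s, hs⟩ : ∃ s : ℝ, s = 1 - p / 2 := ⟨_, rfl⟩
    obtain ⟨t, ht⟩ : ∃ t : ℝ, t = p / 2 := ⟨_, rfl⟩
    obtain ⟨v, hv⟩ : ∃ v : ℝ, v = 1 - p := ⟨_, rfl⟩
    rw [← hs] at hq
    rw [← hs, ← ht, ← hv, div_pow, div_pow]
    obtain ⟨k, rfl⟩ := Nat.exists_eq_add_of_le ha
    rw [Nat.add_sub_cancel_left, pow_add]
    field_simp
  rw [h2]
  refine mul_le_mul_of_nonneg_left (h1.trans (le_of_eq ?_)) (by positivity)
  ring

/-- case 1 -/
lemma case1 (hbp : S_bp) (p : ℝ) (h6 : 6 / 10 ≤ p) (h7 : p ≤ 7 / 10) (N w j j' : ℕ) :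
    cf j j' ((mo 1 1 p + mo 0 0 (1 - p)) ^ N *
      (mo 1 1 (p / 2) + (mo 0 1 (1 - p) + mo 1 0 (p / 2))) ^ w) ≤
      8 / (Real.sqrt ((N : ℝ) + 1) * Real.sqrt ((w : ℝ) + 1)) := by
  have hsN : 0 < Real.sqrt ((N : ℝ) + 1) := Real.sqrt_pos.mpr (by positivity)
  have hsw : 0 < Real.sqrt ((w : ℝ) + 1) := Real.sqrt_pos.mpr (by positivity)
  have hp0 : 0 ≤ p := by linarith
  have hp1 : 0 ≤ 1 - p := by linarith
  rw [exp0, exp1, Finset.sum_mul_sum, Finset.sum_comm, cf_sum]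
  have e1 : ∀ c ∈ Finset.range (w + 1), cf j j' (∑ X ∈ Finset.range (N + 1),
      mo X X (bp p N X) * ∑ a ∈ Finset.range (w - c + 1),
      mo (c + (w - c - a)) (c + a) (((w.choose c : ℝ) * (p / 2) ^ c) *
        (((w - c).choose a : ℝ) * ((1 - p) ^ a * (p / 2) ^ (w - c - a))))) ≤
      (4 / Real.sqrt ((N : ℝ) + 1)) * (bp (p / 2) w c * (1 / Real.sqrt ((w - c : ℕ) + 1 : ℝ))) := by
    intro c hc
    rw [Finset.mem_range] at hc
    have e2 : cf j j' (∑ X ∈ Finset.range (N + 1),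
      mo X X (bp p N X) * ∑ a ∈ Finset.range (w - c + 1),
      mo (c + (w - c - a)) (c + a) (((w.choose c : ℝ) * (p / 2) ^ c) *
        (((w - c).choose a : ℝ) * ((1 - p) ^ a * (p / 2) ^ (w - c - a))))) =
        ∑ X ∈ Finset.range (N + 1), ∑ a ∈ Finset.range (w - c + 1),
          (if X + (c + (w - c - a)) = j ∧ X + (c + a) = j' then bp p N X *
            (((w.choose c : ℝ) * (p / 2) ^ c) *
        (((w - c).choose a : ℝ) * ((1 - p) ^ a * (p / 2) ^ (w - c - a)))) else 0) := by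
      rw [cf_sum]
      refine Finset.sum_congr rfl fun X _ => ?_
      rw [Finset.mul_sum, cf_sum]
      refine Finset.sum_congr rfl fun a _ => ?_
      rw [mo_mul, cf_mo]
    rw [e2]
    refine (one_term (Finset.range (N + 1)) (Finset.range (w - c + 1))
      (fun X a => X + (c + (w - c - a)) = j ∧ X + (c + a) = j') (fun X => bp p N X)
      (fun a => ((w.choose c : ℝ) * (p / 2) ^ c) *
        (((w - c).choose a : ℝ) * ((1 - p) ^ a * (p / 2) ^ (w - c - a))))
      (2 / Real.sqrt ((N : ℝ) + 1)) (((w.choose c : ℝ) * (p / 2) ^ c) *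
        ((1 - p / 2) ^ (w - c) * (2 * (1 / Real.sqrt ((w - c : ℕ) + 1 : ℝ))))) (by positivity)
      ?_ ?_ ?_ ?_ ?_).trans (le_of_eq ?_)
    · have : 0 ≤ 1 - p / 2 := by linarith
      positivity
    · intro X hX a ha X' hX' a' ha' h1 h2
      rw [Finset.mem_range] at hX ha hX' ha'
      omega
    · intro X _
      exact bp_nonneg hp0 (by linarith) _ _
    · intro X _
      exact hbp p N X (by linarith) (by linarith)
    · intro X _ a ha _
      rw [Finset.mem_range] at ha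
      refine mul_le_mul_of_nonneg_left ?_ (by positivity)
      exact tri_bp hbp p h6 h7 (w - c) a (by omega)
    · unfold bp
      ring
  refine (Finset.sum_le_sum e1).trans ?_
  rw [← Finset.mul_sum]
  have e3 := avg_sqrt (p / 2) w (by linarith) (by linarith)
  calc _ ≤ (4 / Real.sqrt ((N : ℝ) + 1)) * (2 / Real.sqrt ((w : ℝ) + 1)) :=
        mul_le_mul_of_nonneg_left e3 (by positivity)
    _ = _ := by field_simp; ring

/-- case 2 -/
lemma case2 (hbp : S_bp) (p : ℝ) (h6 : 6 / 10 ≤ p) (h7 : p ≤ 7 / 10) (N w j j' : ℕ) (y : ℝ)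
    (hy : 0 < y) (hyj : y ≤ (j : ℝ) - N + 1) :
    cf j j' ((mo 1 1 p + mo 0 0 (1 - p)) ^ N *
      (mo 1 1 (p / 2) + (mo 0 1 (1 - p) + mo 1 0 (p / 2))) ^ w) ≤
      4 / (Real.sqrt y * Real.sqrt ((w : ℝ) + 1)) := by
  have hsy : 0 < Real.sqrt y := Real.sqrt_pos.mpr hy
  have hsw : 0 < Real.sqrt ((w : ℝ) + 1) := Real.sqrt_pos.mpr (by positivity)
  have hp0 : 0 ≤ p := by linarith
  have hp1 : 0 ≤ 1 - p := by linarith
  rw [exp0, exp2, Finset.sum_mul, cf_sum]
  have e1 : ∀ X ∈ Finset.range (N + 1), cf j j' (mo X X (bp p N X) *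
      ∑ a ∈ Finset.range (w + 1), ∑ c ∈ Finset.range (w - a + 1),
      mo (w - a) (a + c) (bp (1 - p) w a * bp (1 / 2) (w - a) c)) ≤
      bp p N X * (4 / (Real.sqrt y * Real.sqrt ((w : ℝ) + 1))) := by
    intro X hX
    rw [Finset.mem_range] at hX
    have hb := bp_nonneg hp0 (show p ≤ 1 by linarith) N X
    have e2 : cf j j' (mo X X (bp p N X) *
      ∑ a ∈ Finset.range (w + 1), ∑ c ∈ Finset.range (w - a + 1),
      mo (w - a) (a + c) (bp (1 - p) w a * bp (1 / 2) (w - a) c)) =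
      bp p N X * ∑ a ∈ Finset.range (w + 1), ∑ c ∈ Finset.range (w - a + 1),
        (if X + (w - a) = j ∧ X + (a + c) = j' then bp (1 - p) w a * bp (1 / 2) (w - a) c
          else 0) := by
      rw [Finset.mul_sum, cf_sum, Finset.mul_sum]
      refine Finset.sum_congr rfl fun a _ => ?_
      rw [Finset.mul_sum, cf_sum, Finset.mul_sum]
      refine Finset.sum_congr rfl fun c _ => ?_
      rw [mo_mul, cf_mo, mul_ite, mul_zero]
    rw [e2]
    refine mul_le_mul_of_nonneg_left ?_ hb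
    have e3 : ∑ a ∈ Finset.range (w + 1), ∑ c ∈ Finset.range (w - a + 1),
        (if X + (w - a) = j ∧ X + (a + c) = j' then bp (1 - p) w a * bp (1 / 2) (w - a) c
          else 0) ≤ ∑ a ∈ Finset.range (w + 1), ∑ c ∈ Finset.range (w + 1),
        (if X + (w - a) = j ∧ X + (a + c) = j' then
          (bp (1 - p) w a * (2 / Real.sqrt y)) * 1 else 0) := by
      refine Finset.sum_le_sum fun a ha => ?_
      rw [Finset.mem_range] at ha
      have hba := bp_nonneg hp1 (show 1 - p ≤ 1 by linarith) w a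
      refine (Finset.sum_le_sum (fun c hc => ?_)).trans
        (Finset.sum_le_sum_of_subset_of_nonneg (Finset.range_mono (by omega : w - a + 1 ≤ w + 1))
          (fun c _ _ => ?_))
      · split_ifs with h
        · rw [mul_one]
          refine mul_le_mul_of_nonneg_left ?_ hba
          refine (hbp (1 / 2) (w - a) c (by norm_num) (by norm_num)).trans ?_
          refine div_le_div_of_nonneg_left (by norm_num) hsy (Real.sqrt_le_sqrt ?_)
          have h3 : ((X : ℝ) + ((w - a : ℕ) : ℝ)) = j := by exact_mod_cast h.1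
          have h4 : (X : ℝ) ≤ N := by
            have : X ≤ N := by omega
            exact_mod_cast this
          linarith
        · exact le_rfl
      · split_ifs with h
        · positivity
        · exact le_rfl
    refine e3.trans ?_
    refine (one_term (Finset.range (w + 1)) (Finset.range (w + 1))
      (fun a c => X + (w - a) = j ∧ X + (a + c) = j')
      (fun a => bp (1 - p) w a * (2 / Real.sqrt y)) (fun _ => 1)
      ((2 / Real.sqrt ((w : ℝ) + 1)) * (2 / Real.sqrt y)) 1 (by positivity) zero_le_one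
      ?_ ?_ ?_ ?_).trans (le_of_eq ?_)
    · intro a ha c hc a' ha' c' hc' h1 h2
      rw [Finset.mem_range] at ha hc ha' hc'
      omega
    · intro a _
      have := bp_nonneg hp1 (show 1 - p ≤ 1 by linarith) w a
      positivity
    · intro a _
      refine mul_le_mul_of_nonneg_right ?_ (by positivity)
      exact hbp (1 - p) w a (by linarith) (by linarith)
    · intro _ _ _ _ _
      exact le_rfl
    · field_simp
      ring
  refine (Finset.sum_le_sum e1).trans ?_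
  rw [← Finset.sum_mul, bp_sum, one_mul]

theorem tri (hbp : S_bp) : S_tri := by
  intro ι _ _ b b' p j j' h6 h7 hj hbb
  rw [sum_eq_cf]
  obtain ⟨w, hw⟩ : ∃ w : ℕ, w = hammingDist b b' := ⟨_, rfl⟩
  obtain ⟨n, hn⟩ : ∃ n : ℕ, n = Fintype.card ι := ⟨_, rfl⟩
  rw [← hw, ← hn]
  have hw0 : 0 < w := by rw [hw]; exact hammingDist_pos.mpr hbb
  have hwn : w ≤ n := by rw [hw, hn]; exact hammingDist_le_card_fintype
  have hw0' : (0 : ℝ) < w := by exact_mod_cast hw0
  have hn0' : (0 : ℝ) < n := by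
    have : 0 < n := by omega
    exact_mod_cast this
  rw [← hn] at hj
  have hNr : ((n - w : ℕ) : ℝ) = (n : ℝ) - w := by push_cast [Nat.cast_sub hwn]; ring
  have hsn : 0 < Real.sqrt ((n : ℝ) * w) := Real.sqrt_pos.mpr (by positivity)
  rcases le_or_gt (4 * w) (3 * n) with h | h
  · refine (case1 hbp p h6 h7 (n - w) w j j').trans ?_
    rw [← Real.sqrt_mul (by positivity)]
    have h1 : (4 : ℝ) * w ≤ 3 * n := by exact_mod_cast h
    have h2 : (n : ℝ) * w / 4 ≤ (((n - w : ℕ) : ℝ) + 1) * ((w : ℝ) + 1) := by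
      rw [hNr]
      nlinarith
    have h3 : Real.sqrt ((n : ℝ) * w) / 2 ≤ Real.sqrt ((((n - w : ℕ) : ℝ) + 1) * ((w : ℝ) + 1)) := by
      refine le_trans (le_of_eq ?_) (Real.sqrt_le_sqrt h2)
      rw [Real.sqrt_div' _ (by norm_num), show (4 : ℝ) = 2 ^ 2 by norm_num,
        Real.sqrt_sq (by norm_num)]
    calc 8 / Real.sqrt ((((n - w : ℕ) : ℝ) + 1) * ((w : ℝ) + 1)) ≤
        8 / (Real.sqrt ((n : ℝ) * w) / 2) := div_le_div_of_nonneg_left (by norm_num) (by positivity) h3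
      _ = 16 / Real.sqrt ((n : ℝ) * w) := by field_simp; norm_num
      _ ≤ 100 / Real.sqrt ((n : ℝ) * w) := div_le_div_of_nonneg_right (by norm_num) hsn.le
  · have h1 : (3 : ℝ) * n < 4 * w := by exact_mod_cast h
    have h2 : (n : ℝ) ≤ 2 * j := by exact_mod_cast hj
    have hy : (0 : ℝ) < (w : ℝ) - n / 2 := by linarith
    refine (case2 hbp p h6 h7 (n - w) w j j' ((w : ℝ) - n / 2) hy (by rw [hNr]; linarith)).trans ?_
    rw [← Real.sqrt_mul hy.le]
    have h3 : (n : ℝ) * w / 4 ≤ ((w : ℝ) - n / 2) * ((w : ℝ) + 1) := by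
      nlinarith
    have h4 : Real.sqrt ((n : ℝ) * w) / 2 ≤ Real.sqrt (((w : ℝ) - n / 2) * ((w : ℝ) + 1)) := by
      refine le_trans (le_of_eq ?_) (Real.sqrt_le_sqrt h3)
      rw [Real.sqrt_div' _ (by norm_num), show (4 : ℝ) = 2 ^ 2 by norm_num,
        Real.sqrt_sq (by norm_num)]
    calc 4 / Real.sqrt (((w : ℝ) - n / 2) * ((w : ℝ) + 1)) ≤
        4 / (Real.sqrt ((n : ℝ) * w) / 2) := div_le_div_of_nonneg_left (by norm_num) (by positivity) h4
      _ = 8 / Real.sqrt ((n : ℝ) * w) := by field_simp; norm_num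
      _ ≤ 100 / Real.sqrt ((n : ℝ) * w) := div_le_div_of_nonneg_right (by norm_num) hsn.le

end Helper86.CW
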