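import Pool.Agent.Helper27.CW.Spec

/-! Part Q4 of the CW swarm (MP_990a44_co): the structure of invertible matrices over `ZMod 3`. -/

set_option linter.unusedSectionVars false

namespace Helper86.CW

open Helper27.CD Helper27.CW

abbrev F3 := ZMod 3

section
variable {κ : Type} [Fintype κ] [DecidableEq κ]

/-- the columns in `S`, restricted to the rows in `R`, are independent -/
def Ind (M : Matrix κ κ F3) (S R : Finset κ) : Prop :=
  ∀ a : κ → F3, (∀ i, i ∉ S → a i = 0) → (∀ r ∈ R, M.mulVec a r = 0) → a = 0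

/-- extension by zero -/
def ext (S : Finset κ) : (S → F3) →ₗ[F3] (κ → F3) where
  toFun a := fun i => if h : i ∈ S then a ⟨i, h⟩ else 0
  map_add' a b := by
    funext i
    by_cases h : i ∈ S <;> simp [h]
  map_smul' c a := by
    funext i
    by_cases h : i ∈ S <;> simp [h]

lemma ext_of_not_mem (S : Finset κ) (a : S → F3) (i : κ) (h : i ∉ S) : ext S a i = 0 := by
  simp [ext, h]

lemma ext_of_mem (S : Finset κ) (a : S → F3) (i : κ) (h : i ∈ S) : ext S a i = a ⟨i, h⟩ := by
  simp [ext, h]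

/-- restriction -/
def res (R : Finset κ) : (κ → F3) →ₗ[F3] (R → F3) where
  toFun v := fun r => v r
  map_add' _ _ := rfl
  map_smul' _ _ := rfl

lemma res_apply (R : Finset κ) (v : κ → F3) (r : R) : res R v r = v r := rfl

lemma exC (M : Matrix κ κ F3) (S R : Finset κ) (h : Ind M S R) (hc : R.card = S.card) :
    ∃ C : (κ → F3) →ₗ[F3] (κ → F3), (∀ v i, i ∉ S → C v i = 0) ∧
      (∀ v, ∀ r ∈ R, M.mulVec (C v) r = v r) := by
  let T : (S → F3) →ₗ[F3] (R → F3) := (res R).comp (M.mulVecLin.comp (ext S))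
  have hT : Function.Injective T := by
    rw [injective_iff_map_eq_zero]
    intro a ha
    have h1 : ext S a = 0 := by
      refine h _ (fun i hi => ext_of_not_mem S a i hi) (fun r hr => ?_)
      have := congrFun ha ⟨r, hr⟩
      simpa [T, res_apply] using this
    funext i
    have := congrFun h1 i.1
    rw [ext_of_mem S a i.1 i.2] at this
    simpa using this
  have hd : Module.finrank F3 (S → F3) = Module.finrank F3 (R → F3) := by
    rw [Module.finrank_fintype_fun_eq_card, Module.finrank_fintype_fun_eq_card]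
    simp [hc]
  let e := LinearMap.linearEquivOfInjective T hT hd
  refine ⟨(ext S).comp (e.symm.toLinearMap.comp (res R)), ?_, ?_⟩
  · intro v i hi
    exact ext_of_not_mem S _ i hi
  · intro v r hr
    have h1 : T (e.symm (res R v)) = res R v := by
      have := e.apply_symm_apply (res R v)
      rwa [LinearMap.linearEquivOfInjective_apply] at this
    have h2 := congrFun h1 ⟨r, hr⟩
    simpa [T, res_apply] using h2

/-- facts on the coefficient map -/
structure CF (M : Matrix κ κ F3) (S R : Finset κ) (C : (κ → F3) →ₗ[F3] (κ → F3)) : Prop where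
  ind : Ind M S R
  sup : ∀ v i, i ∉ S → C v i = 0
  eqR : ∀ v, ∀ r ∈ R, M.mulVec (C v) r = v r

lemma CF.zero {M : Matrix κ κ F3} {S R : Finset κ} {C : (κ → F3) →ₗ[F3] (κ → F3)}
    (h : CF M S R C) (v : κ → F3) (hv : ∀ r ∈ R, v r = 0) : C v = 0 :=
  h.ind _ (h.sup v) (fun r hr => by rw [h.eqR v r hr, hv r hr])

lemma CF.unit {M : Matrix κ κ F3} {S R : Finset κ} {C : (κ → F3) →ₗ[F3] (κ → F3)}
    (h : CF M S R C) (i : κ) (hi : i ∈ S) : C (M.mulVec (Pi.single i 1)) = Pi.single i 1 := by
  have : C (M.mulVec (Pi.single i 1)) - Pi.single i 1 = 0 := by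
    refine h.ind _ ?_ ?_
    · intro k hk
      have hki : k ≠ i := fun e => hk (e ▸ hi)
      simp [h.sup _ k hk, Pi.single_eq_of_ne hki]
    · intro r hr
      rw [Matrix.mulVec_sub, Pi.sub_apply, h.eqR _ r hr, sub_self]
  exact sub_eq_zero.mp this

lemma CF.spans {M : Matrix κ κ F3} {S R : Finset κ} {C : (κ → F3) →ₗ[F3] (κ → F3)}
    (h : CF M S R C) : Spans M S R := by
  intro f
  refine ⟨fun r => if r ∈ R then ∑ i, f i * C (Pi.single r 1) i else 0, ?_, ?_⟩
  · intro r hr
    simp [hr]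
  · intro i hi
    have h1 : ∑ r, M r i * (if r ∈ R then ∑ k, f k * C (Pi.single r 1) k else 0) =
        ∑ k, f k * C (fun r => if r ∈ R then M r i else 0) k := by
      have h2 : (fun r => if r ∈ R then M r i else 0) =
          ∑ r ∈ R, M r i • (Pi.single r 1 : κ → F3) := by
        funext s
        rw [Finset.sum_apply]
        simp only [Pi.smul_apply, Pi.single_apply, smul_eq_mul, mul_ite, mul_one, mul_zero]
        rw [Finset.sum_ite_eq]
      rw [h2, map_sum]
      simp only [map_smul, Finset.sum_apply, Pi.smul_apply, smul_eq_mul, mul_ite, mul_zero]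
      rw [← Finset.sum_filter]
      simp only [Finset.filter_mem_eq_inter, Finset.univ_inter, Finset.mul_sum]
      rw [Finset.sum_comm]
      refine Finset.sum_congr rfl fun k _ => Finset.sum_congr rfl fun r _ => ?_
      ring
    rw [h1]
    have h3 : C (fun r => if r ∈ R then M r i else 0) = Pi.single i 1 := by
      rw [← h.unit i hi]
      rw [← sub_eq_zero, ← map_sub]
      refine h.zero _ (fun r hr => ?_)
      simp [hr]
    rw [h3]
    simp [Pi.single_apply]

/-- the extension step -/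
lemma CF.extend {M : Matrix κ κ F3} {S R : Finset κ} {C : (κ → F3) →ₗ[F3] (κ → F3)}
    (h : CF M S R C) (i r : κ) (hi : i ∉ S)
    (hr : (M.mulVec (Pi.single i 1) - M.mulVec (C (M.mulVec (Pi.single i 1)))) r ≠ 0) :
    Ind M (insert i S) (insert r R) := by
  intro a ha haR
  -- `a = a' + b e_i`
  obtain ⟨b, hb⟩ : ∃ b : F3, b = a i := ⟨_, rfl⟩
  obtain ⟨a', ha'⟩ : ∃ a' : κ → F3, a' = a - b • (Pi.single i 1 : κ → F3) := ⟨_, rfl⟩
  have ha'S : ∀ k, k ∉ S → a' k = 0 := by
    intro k hk
    by_cases hki : k = i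
    · subst hki
      simp [ha', hb]
    · have := ha k (by simp [hki, hk])
      simp [ha', this, Pi.single_eq_of_ne hki]
  have haa : a = a' + b • (Pi.single i 1 : κ → F3) := by rw [ha']; simp
  -- `C (M a) = 0`
  have h0 : C (M.mulVec a) = 0 := h.zero _ (fun s hs => haR s (Finset.mem_insert_of_mem hs))
  have hCa' : C (M.mulVec a') = a' := by
    have : C (M.mulVec a') - a' = 0 := by
      refine h.ind _ ?_ ?_
      · intro k hk
        simp [h.sup _ k hk, ha'S k hk]
      · intro s hs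
        rw [Matrix.mulVec_sub, Pi.sub_apply, h.eqR _ s hs, sub_self]
    exact sub_eq_zero.mp this
  have h1 : M.mulVec a = M.mulVec a' + b • M.mulVec (Pi.single i 1) := by
    conv_lhs => rw [haa]
    rw [Matrix.mulVec_add, Matrix.mulVec_smul]
  have h2 : a' + b • C (M.mulVec (Pi.single i 1)) = 0 := by
    rw [h1, map_add, map_smul, hCa'] at h0
    exact h0
  have h3 : M.mulVec a = b • (M.mulVec (Pi.single i 1) -
      M.mulVec (C (M.mulVec (Pi.single i 1)))) := by
    rw [h1, eq_neg_of_add_eq_zero_left h2, Matrix.mulVec_neg, Matrix.mulVec_smul, smul_sub]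
    abel
  have h4 := haR r (Finset.mem_insert_self r R)
  rw [h3, Pi.smul_apply, smul_eq_mul] at h4
  have hb0 : b = 0 := (mul_eq_zero.mp h4).resolve_right hr
  rw [hb0, zero_smul, add_zero] at h2
  rw [haa, h2, hb0, zero_smul, add_zero]

/-- the projection -/
noncomputable def prj (M : Matrix κ κ F3) (C : (κ → F3) →ₗ[F3] (κ → F3)) (Rc : Finset κ) :
    (κ → F3) →ₗ[F3] (Rc → F3) :=
  (res Rc).comp (LinearMap.id - M.mulVecLin.comp C)

lemma prj_apply (M : Matrix κ κ F3) (C : (κ → F3) →ₗ[F3] (κ → F3)) (Rc : Finset κ) (v : κ → F3)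
    (r : Rc) : prj M C Rc v r = (v - M.mulVec (C v)) r := rfl

lemma prj_surj {M : Matrix κ κ F3} {S R : Finset κ} {C : (κ → F3) →ₗ[F3] (κ → F3)}
    (h : CF M S R C) (Rc : Finset κ) (hd : Disjoint R Rc) :
    Function.Surjective (prj M C Rc) := by
  intro w
  refine ⟨ext Rc w, ?_⟩
  have h0 : C (ext Rc w) = 0 := by
    refine h.zero _ (fun r hr => ?_)
    exact ext_of_not_mem Rc w r (fun hr' => (Finset.disjoint_left.mp hd) hr hr')
  funext r
  rw [prj_apply, h0]
  simp [ext_of_mem Rc w r.1 r.2]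

lemma colInd (M : Matrix κ κ F3) (hM : IsUnit M.det) :
    LinearIndependent F3 (fun i : κ => M.mulVec (Pi.single i 1)) := by
  have h1 : IsUnit M := (Matrix.isUnit_iff_isUnit_det M).mpr hM
  have h2 := Matrix.linearIndependent_cols_of_isUnit h1
  have h3 : (fun i : κ => M.mulVec (Pi.single i 1)) = M.col := by
    funext i
    exact Matrix.mulVec_single_one M i
  rw [h3]
  exact h2

lemma colSpan (M : Matrix κ κ F3) (hM : IsUnit M.det) (v : κ → F3) :
    ∃ a : κ → F3, v = ∑ i, a i • M.mulVec (Pi.single i 1) := by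
  refine ⟨M⁻¹.mulVec v, ?_⟩
  have h1 : v = M.mulVec (M⁻¹.mulVec v) := by
    rw [Matrix.mulVec_mulVec, Matrix.mul_nonsing_inv M hM, Matrix.one_mulVec]
  conv_lhs => rw [h1]
  rw [Matrix.mulVec_eq_sum]
  funext s
  simp [Finset.sum_apply, mul_comm]

/-- the number of columns in the kernel -/
lemma card_ker {M : Matrix κ κ F3} (hM : IsUnit M.det) {S R : Finset κ}
    {C : (κ → F3) →ₗ[F3] (κ → F3)} (h : CF M S R C) (Rc : Finset κ) (hd : Disjoint R Rc)
    (Z : Finset κ) (hZ : ∀ i ∈ Z, prj M C Rc (M.mulVec (Pi.single i 1)) = 0) :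
    Z.card + Rc.card ≤ Fintype.card κ := by
  have h1 := LinearMap.finrank_range_add_finrank_ker (prj M C Rc)
  have h2 : LinearMap.range (prj M C Rc) = ⊤ := LinearMap.range_eq_top.mpr (prj_surj h Rc hd)
  rw [h2, finrank_top, Module.finrank_fintype_fun_eq_card, Module.finrank_fintype_fun_eq_card]
    at h1
  have h3 : LinearIndependent F3 (fun i : Z =>
      (⟨M.mulVec (Pi.single i.1 1), by rw [LinearMap.mem_ker]; exact hZ i.1 i.2⟩ :
        LinearMap.ker (prj M C Rc))) := by
    have h4 : LinearIndependent F3 (fun i : Z => M.mulVec (Pi.single i.1 1)) :=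
      (colInd M hM).comp (fun i : Z => i.1) Subtype.val_injective
    exact LinearIndependent.of_comp (LinearMap.ker (prj M C Rc)).subtype h4
  have h5 := h3.fintype_card_le_finrank
  rw [Fintype.card_coe] at h1 h5
  omega

end

theorem dich : S_dich := by
  classical
  intro κ _ _ M hM
  -- the maximal configuration
  let G : Finset κ × Finset κ × Finset κ → Prop := fun t =>
    t.2.1.card = t.1.card ∧ t.2.2.card = t.1.card ∧ Disjoint t.2.1 t.2.2 ∧
      Ind M t.1 t.2.1 ∧ Ind M t.1 t.2.2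
  have hne : (Finset.univ.filter G).Nonempty := by
    refine ⟨(∅, ∅, ∅), ?_⟩
    rw [Finset.mem_filter]
    refine ⟨Finset.mem_univ _, rfl, rfl, Finset.disjoint_empty_left _, ?_, ?_⟩ <;>
    · intro a ha _
      funext i
      exact ha i (Finset.notMem_empty i)
  obtain ⟨⟨S, R1, R2⟩, hm, hmax⟩ := Finset.exists_max_image (Finset.univ.filter G)
    (fun t => t.1.card) hne
  rw [Finset.mem_filter] at hm
  obtain ⟨-, c1, c2, hd, i1, i2⟩ := hm
  simp only at c1 c2 hd i1 i2
  obtain ⟨C1, hC1s, hC1e⟩ := exC M S R1 i1 c1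
  obtain ⟨C2, hC2s, hC2e⟩ := exC M S R2 i2 c2
  have F1 : CF M S R1 C1 := ⟨i1, hC1s, hC1e⟩
  have F2 : CF M S R2 C2 := ⟨i2, hC2s, hC2e⟩
  clear hC1s hC1e hC2s hC2e
  obtain ⟨Rc, hRc⟩ : ∃ Rc : Finset κ, Rc = (R1 ∪ R2)ᶜ := ⟨_, rfl⟩
  have hd1 : Disjoint R1 Rc := by
    rw [hRc, Finset.disjoint_left]
    intro x hx hx'
    simp at hx'
    exact hx'.1 hx
  have hd2 : Disjoint R2 Rc := by
    rw [hRc, Finset.disjoint_left]
    intro x hx hx'
    simp at hx'
    exact hx'.2 hx
  have hcard : Fintype.card κ = 2 * S.card + Rc.card := by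
    have := Finset.card_add_card_compl (R1 ∪ R2)
    rw [Finset.card_union_of_disjoint hd, ← hRc] at this
    omega
  refine ⟨S.card, ⟨S, R1, R2, rfl, hd, F1.spans, F2.spans⟩, ?_⟩
  -- the images of the columns
  let p1 : κ → (Rc → F3) := fun i => prj M C1 Rc (M.mulVec (Pi.single i 1))
  let p2 : κ → (Rc → F3) := fun i => prj M C2 Rc (M.mulVec (Pi.single i 1))
  have hp1S : ∀ i ∈ S, p1 i = 0 := by
    intro i hi
    funext r
    simp only [p1]
    rw [prj_apply, F1.unit i hi]
    simp
  have hp2S : ∀ i ∈ S, p2 i = 0 := by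
    intro i hi
    funext r
    simp only [p2]
    rw [prj_apply, F2.unit i hi]
    simp
  -- maximality
  have key : ∀ i, ∀ r1 r2 : Rc, p1 i r1 ≠ 0 → p2 i r2 ≠ 0 → r1 = r2 := by
    intro i r1 r2 h1 h2
    by_contra hne'
    have hiS : i ∉ S := fun hi => h1 (by rw [hp1S i hi]; rfl)
    have e1 := F1.extend i r1.1 hiS h1
    have e2 := F2.extend i r2.1 hiS h2
    have n1 : r1.1 ∉ R1 := fun h => (Finset.disjoint_left.mp hd1) h r1.2
    have n2 : r2.1 ∉ R2 := fun h => (Finset.disjoint_left.mp hd2) h r2.2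
    have n3 : r1.1 ∉ R2 := fun h => (Finset.disjoint_left.mp hd2) h r1.2
    have n4 : r2.1 ∉ R1 := fun h => (Finset.disjoint_left.mp hd1) h r2.2
    have hne2 : r1.1 ≠ r2.1 := fun h => hne' (Subtype.ext h)
    have hmem : (insert i S, insert r1.1 R1, insert r2.1 R2) ∈ Finset.univ.filter G := by
      rw [Finset.mem_filter]
      refine ⟨Finset.mem_univ _, ?_, ?_, ?_, e1, e2⟩
      · simp only
        rw [Finset.card_insert_of_notMem n1, Finset.card_insert_of_notMem hiS, c1]
      · simp only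
        rw [Finset.card_insert_of_notMem n2, Finset.card_insert_of_notMem hiS, c2]
      · simp only
        rw [Finset.disjoint_insert_left, Finset.disjoint_insert_right]
        refine ⟨?_, n4, hd⟩
        simp [hne2, n3]
    have := hmax _ hmem
    simp only at this
    rw [Finset.card_insert_of_notMem hiS] at this
    omega
  -- the classes
  obtain ⟨Sb, hSb⟩ : ∃ Sb : Finset κ, Sb = Finset.univ.filter (fun i => i ∉ S ∧ p1 i = 0) :=
    ⟨_, rfl⟩
  obtain ⟨Sc, hSc⟩ : ∃ Sc : Finset κ, Sc = Finset.univ.filter (fun i => i ∉ S ∧ p2 i = 0) :=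
    ⟨_, rfl⟩
  have hcc : Sc.card ≤ S.card := by
    have h1 := card_ker hM F2 Rc hd2 (S ∪ Sc) (by
      intro i hi
      rw [Finset.mem_union] at hi
      rcases hi with hi | hi
      · exact hp2S i hi
      · rw [hSc, Finset.mem_filter] at hi
        exact hi.2.2)
    have h2 : Disjoint S Sc := by
      rw [Finset.disjoint_left]
      intro x hx hx'
      rw [hSc, Finset.mem_filter] at hx'
      exact hx'.2.1 hx
    rw [Finset.card_union_of_disjoint h2] at h1
    omega
  obtain ⟨Sa, hSa⟩ : ∃ Sa : Finset κ, Sa = Finset.univ.filter (fun i => p1 i ≠ 0 ∧ p2 i ≠ 0) :=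
    ⟨_, rfl⟩
  -- the common position
  have hpos : ∀ i, i ∈ Sa → ∃ r : κ, r ∈ Rc ∧ (∀ s : Rc, s.1 = r → p1 i s ≠ 0) ∧
      ∀ s : Rc, s.1 ≠ r → p1 i s = 0 := by
    intro i hi
    rw [hSa, Finset.mem_filter] at hi
    obtain ⟨-, h1, h2⟩ := hi
    obtain ⟨r1, hr1⟩ := Function.ne_iff.mp h1
    obtain ⟨r2, hr2⟩ := Function.ne_iff.mp h2
    have e := key i r1 r2 hr1 hr2
    refine ⟨r1.1, r1.2, fun s hs => ?_, fun s hs => ?_⟩
    · have : s = r1 := Subtype.ext hs
      rw [this]
      exact hr1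
    · by_contra hs'
      exact hs (congrArg Subtype.val ((key i s r2 hs' hr2).trans e.symm))
  choose r' hr'1 hr'2 hr'3 using hpos
  obtain ⟨σ, hσ⟩ : ∃ σ : κ → κ, σ = fun i => if h : i ∈ Sa then r' i h else i := ⟨_, rfl⟩
  have hσ1 : ∀ i ∈ Sa, σ i ∈ Rc := by
    intro i hi
    rw [hσ]
    simp only [dif_pos hi]
    exact hr'1 i hi
  have hσ2 : ∀ i ∈ Sa, ∀ s : Rc, s.1 = σ i → p1 i s ≠ 0 := by
    intro i hi s hs
    rw [hσ] at hs
    simp only [dif_pos hi] at hs
    exact hr'2 i hi s hs
  have hσ3 : ∀ i ∈ Sa, ∀ s : Rc, s.1 ≠ σ i → p1 i s = 0 := by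
    intro i hi s hs
    rw [hσ] at hs
    simp only [dif_pos hi] at hs
    exact hr'3 i hi s hs
  clear hσ
  -- the section
  have hsec : ∀ y : κ, ∃ i : κ, y ∈ Sa.image σ → i ∈ Sa ∧ σ i = y := by
    intro y
    by_cases hy : y ∈ Sa.image σ
    · obtain ⟨i, hi, hiy⟩ := Finset.mem_image.mp hy
      exact ⟨i, fun _ => ⟨hi, hiy⟩⟩
    · exact ⟨y, fun h => absurd h hy⟩
  choose g hg using hsec
  obtain ⟨Y, hY⟩ : ∃ Y : Finset κ, Y = Sa.image σ := ⟨_, rfl⟩
  rw [← hY] at hg
  obtain ⟨S2, hS2⟩ : ∃ S2 : Finset κ, S2 = Y.image g := ⟨_, rfl⟩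
  have hS2c : S2.card = Y.card := by
    rw [hS2]
    refine Finset.card_image_of_injOn ?_
    intro x hx y hy hxy
    rw [← (hg x hx).2, ← (hg y hy).2]
    exact congrArg σ hxy
  have hS2a : ∀ i ∈ S2, i ∈ Sa := by
    intro i hi
    rw [hS2] at hi
    obtain ⟨y, hy, rfl⟩ := Finset.mem_image.mp hi
    exact (hg y hy).1
  have hS2inj : Set.InjOn σ S2 := by
    intro i hi k hk hik
    rw [Finset.mem_coe, hS2] at hi hk
    obtain ⟨y, hy, rfl⟩ := Finset.mem_image.mp hi
    obtain ⟨z, hz, rfl⟩ := Finset.mem_image.mp hk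
    rw [(hg y hy).2, (hg z hz).2] at hik
    rw [hik]
  -- the images span
  obtain ⟨Z, hZ⟩ : ∃ Z : Finset (Rc → F3), Z =
    Y.image (fun y => (fun s : Rc => if s.1 = y then (1 : F3) else 0)) ∪ Sc.image p1 := ⟨_, rfl⟩
  have hspan : Submodule.span F3 (Z : Set (Rc → F3)) = ⊤ := by
    rw [eq_top_iff]
    intro w _
    obtain ⟨v, rfl⟩ := prj_surj F1 Rc hd1 w
    obtain ⟨a, ha⟩ := colSpan M hM v
    rw [ha, map_sum]
    refine Submodule.sum_mem _ fun i _ => ?_
    rw [map_smul]
    refine Submodule.smul_mem _ _ ?_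
    change p1 i ∈ _
    by_cases h1 : p1 i = 0
    · rw [h1]; exact Submodule.zero_mem _
    · by_cases h2 : p2 i = 0
      · refine Submodule.subset_span ?_
        rw [hZ, Finset.mem_coe, Finset.mem_union]
        right
        refine Finset.mem_image.mpr ⟨i, ?_, rfl⟩
        rw [hSc, Finset.mem_filter]
        exact ⟨Finset.mem_univ _, fun hi => h1 (hp1S i hi), h2⟩
      · have hi : i ∈ Sa := by
          rw [hSa, Finset.mem_filter]
          exact ⟨Finset.mem_univ _, h1, h2⟩
        have h3 : p1 i = (p1 i ⟨σ i, hσ1 i hi⟩) •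
            (fun s : Rc => if s.1 = σ i then (1 : F3) else 0) := by
          funext s
          rw [Pi.smul_apply, smul_eq_mul]
          by_cases hs : s.1 = σ i
          · rw [if_pos hs, mul_one]
            congr 1
            exact Subtype.ext hs
          · rw [if_neg hs, mul_zero]
            exact hσ3 i hi s hs
        rw [h3]
        refine Submodule.smul_mem _ _ (Submodule.subset_span ?_)
        rw [hZ, Finset.mem_coe, Finset.mem_union]
        left
        refine Finset.mem_image.mpr ⟨σ i, ?_, rfl⟩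
        rw [hY]
        exact Finset.mem_image_of_mem σ hi
  have hcount : Rc.card ≤ Y.card + Sc.card := by
    have h1 := finrank_span_finset_le_card (R := F3) Z
    rw [Set.finrank, hspan, finrank_top, Module.finrank_fintype_fun_eq_card,
      Fintype.card_coe] at h1
    refine h1.trans ?_
    rw [hZ]
    exact (Finset.card_union_le _ _).trans (add_le_add Finset.card_image_le Finset.card_image_le)
  -- the conclusion
  refine ⟨S2, σ, Matrix.of fun k i => M.mulVec (C1 (M.mulVec (Pi.single i 1))) (σ k),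
    fun i => M (σ i) i - M.mulVec (C1 (M.mulVec (Pi.single i 1))) (σ i), by omega, hS2inj,
    ?_, ?_, ?_⟩
  · -- the rank
    have h1 : (Matrix.of fun k i => M.mulVec (C1 (M.mulVec (Pi.single i 1))) (σ k) :
        Matrix κ κ F3) = (Matrix.of fun (k : κ) (s : S) => M (σ k) s.1 : Matrix κ S F3) *
        (Matrix.of fun (s : S) (i : κ) => C1 (M.mulVec (Pi.single i 1)) s.1 : Matrix S κ F3) := by
      ext k i
      rw [Matrix.mul_apply]
      simp only [Matrix.of_apply]
      rw [Matrix.mulVec, dotProduct]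
      rw [Finset.sum_coe_sort S (fun s => M (σ k) s * C1 (M.mulVec (Pi.single i 1)) s)]
      symm
      refine Finset.sum_subset (Finset.subset_univ S) fun s _ hs => ?_
      rw [F1.sup _ s hs, mul_zero]
    rw [h1]
    refine (Matrix.rank_mul_le_left _ _).trans ?_
    refine (Matrix.rank_le_card_width _).trans ?_
    rw [Fintype.card_coe]
  · intro i hi
    have h1 := hσ2 i (hS2a i hi) ⟨σ i, hσ1 i (hS2a i hi)⟩ rfl
    simp only [p1] at h1
    rw [prj_apply, Matrix.mulVec_single_one] at h1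
    simpa using h1
  · intro i hi k hk
    rw [Matrix.of_apply]
    by_cases hik : i = k
    · subst hik
      rw [if_pos rfl]
      ring
    · rw [if_neg hik, add_zero]
      have hne' : σ k ≠ σ i := fun h => hik (hS2inj hi hk h.symm)
      have h1 := hσ3 i (hS2a i hi) ⟨σ k, hσ1 k (hS2a k hk)⟩ hne'
      simp only [p1] at h1
      rw [prj_apply, Matrix.mulVec_single_one] at h1
      have h2 : M (σ k) i - (M.mulVec (C1 (M.mulVec (Pi.single i 1)))) (σ k) = 0 := by
        simpa using h1
      exact sub_eq_zero.mp h2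

end Helper86.CW
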